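import Mathlib

set_option autoImplicit false

open Finset

universe u

namespace Pool.Agent.Results.MP_ba8304_co.NonsquareReduction

/-- `D` is a planar difference set of order `n` in the finite abelian group `G`. -/
structure IsPDS {G : Type*} [AddCommGroup G] [Fintype G] (n : ℕ) (D : Finset G) : Prop where
  two_le : 2 ≤ n
  card_G : Fintype.card G = n ^ 2 + n + 1
  card_D : D.card = n + 1
  diff : ∀ x : G, x ≠ 0 → ∃! p : G × G, p.1 ∈ D ∧ p.2 ∈ D ∧ p.1 - p.2 = x

/-- `t` is a numerical multiplier of `D`: it is coprime to the group order and `t D` is a translate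
of `D`. -/
def IsMultiplier {G : Type*} [AddCommGroup G] [Fintype G] [DecidableEq G] (t : ℕ) (D : Finset G) :
    Prop :=
  Nat.Coprime t (Fintype.card G) ∧ ∃ g : G, D.image (fun x => t • x) = D.image (fun x => x + g)

section basic

variable {G : Type*} [AddCommGroup G] [Fintype G] [DecidableEq G] {n : ℕ} {D : Finset G}

theorem IsPDS.uniq (h : IsPDS n D) {a b c d : G} (ha : a ∈ D) (hb : b ∈ D) (hc : c ∈ D)
    (hd : d ∈ D) (he : a - b = c - d) : (a = b ∧ c = d) ∨ (a = c ∧ b = d) := by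
  by_cases hab : a = b
  · left
    refine ⟨hab, ?_⟩
    rw [hab, sub_self] at he
    exact (sub_eq_zero.mp he.symm)
  · right
    have hx : a - b ≠ 0 := sub_ne_zero.mpr hab
    obtain ⟨p, _, hp⟩ := h.diff (a - b) hx
    have h1 := hp (a, b) ⟨ha, hb, rfl⟩
    have h2 := hp (c, d) ⟨hc, hd, he.symm⟩
    have h3 : (a, b) = (c, d) := h1.trans h2.symm
    exact ⟨congrArg Prod.fst h3, congrArg Prod.snd h3⟩

theorem IsPDS.translate (h : IsPDS n D) (g : G) : IsPDS n (D.image (fun x => x + g)) where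
  two_le := h.two_le
  card_G := h.card_G
  card_D := by rw [Finset.card_image_of_injective _ (add_left_injective g), h.card_D]
  diff := by
    intro x hx
    obtain ⟨p, hp, hu⟩ := h.diff x hx
    refine ⟨(p.1 + g, p.2 + g), ⟨mem_image_of_mem _ hp.1, mem_image_of_mem _ hp.2.1, ?_⟩, ?_⟩
    · simp only; rw [← hp.2.2]; abel
    · rintro ⟨a, b⟩ ⟨ha, hb, hab⟩
      simp only [mem_image] at ha hb
      obtain ⟨a', ha', rfl⟩ := ha
      obtain ⟨b', hb', rfl⟩ := hb
      have := hu (a', b') ⟨ha', hb', by rw [← hab]; simp⟩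
      rw [← this]

/-- the coprimality of `n + 1` and the group order -/
theorem cop1 (n : ℕ) : Nat.Coprime (n ^ 2 + n + 1) (n + 1) := by
  have : n ^ 2 + n + 1 = 1 + (n + 1) * n := by ring
  rw [this, Nat.coprime_add_mul_left_left]
  exact Nat.coprime_one_left _

theorem copn (n : ℕ) : Nat.Coprime (n ^ 2 + n + 1) n := by
  have : n ^ 2 + n + 1 = 1 + n * (n + 1) := by ring
  rw [this, Nat.coprime_add_mul_left_left]
  exact Nat.coprime_one_left _

omit [DecidableEq G] in
theorem smul_inj (t : ℕ) (ht : Nat.Coprime t (Fintype.card G)) :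
    Function.Injective (fun x : G => t • x) := by
  have h2 : (Nat.card G).Coprime t := by rw [Nat.card_eq_fintype_card]; exact ht.symm
  exact (nsmulCoprime h2).injective

omit [DecidableEq G] in
theorem smul_surj (t : ℕ) (ht : Nat.Coprime t (Fintype.card G)) :
    Function.Surjective (fun x : G => t • x) := by
  have h2 : (Nat.card G).Coprime t := by rw [Nat.card_eq_fintype_card]; exact ht.symm
  exact (nsmulCoprime h2).surjective

theorem exists_zero_sum (h : IsPDS n D) : ∃ g : G, ∑ x ∈ D.image (fun x => x + g), x = 0 := by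
  have hc : Nat.Coprime (n + 1) (Fintype.card G) := by rw [h.card_G]; exact (cop1 n).symm
  obtain ⟨g, hg⟩ := smul_surj (n + 1) hc (-∑ x ∈ D, x)
  refine ⟨g, ?_⟩
  rw [Finset.sum_image (fun a _ b _ hab => add_left_injective g hab), Finset.sum_add_distrib,
    Finset.sum_const, h.card_D]
  simp only at hg
  rw [hg]; simp

theorem image_eq_of_zero_sum (h : IsPDS n D) (h0 : ∑ x ∈ D, x = 0) (t : ℕ)
    (ht : Nat.Coprime t (Fintype.card G)) (g : G)
    (hg : D.image (fun x => t • x) = D.image (fun x => x + g)) :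
    D.image (fun x => t • x) = D := by
  have hc : Nat.Coprime (n + 1) (Fintype.card G) := by rw [h.card_G]; exact (cop1 n).symm
  have h1 : ∑ x ∈ D.image (fun x => t • x), x = 0 := by
    rw [Finset.sum_image (fun a _ b _ hab => smul_inj t ht hab), ← Finset.smul_sum, h0, smul_zero]
  have h2 : ∑ x ∈ D.image (fun x => x + g), x = (n + 1) • g := by
    rw [Finset.sum_image (fun a _ b _ hab => add_left_injective g hab), Finset.sum_add_distrib,
      Finset.sum_const, h.card_D, h0, zero_add]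
  have h3 : (n + 1) • g = 0 := by rw [← h2, ← hg, h1]
  have h4 : g = 0 := smul_inj (n + 1) hc (by simpa using h3)
  rw [hg, h4]; simp

theorem multiplier_translate (t : ℕ) (g : G)
    (ht : IsMultiplier t D) : IsMultiplier t (D.image (fun x => x + g)) := by
  obtain ⟨h1, g', h2⟩ := ht
  refine ⟨h1, g' + t • g - g, ?_⟩
  rw [Finset.image_image, Finset.image_image]
  have e1 : D.image ((fun x => t • x) ∘ fun x => x + g) =
      (D.image (fun x => t • x)).image (fun x => x + t • g) := by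
    rw [Finset.image_image]
    congr 1
    funext x
    simp [smul_add]
  rw [e1, h2, Finset.image_image]
  congr 1
  funext x
  simp only [Function.comp]
  abel

omit [Fintype G] [DecidableEq G] in
theorem aux1 (A B q d : G) (h : A - B = q - d) : B - d = A - q := by
  have : B = A - (q - d) := by rw [← h]; abel
  rw [this]; abel

/-- a set of `n + 1` points which meets every line `D + x` is a line -/
theorem block (h : IsPDS n D) (P : Finset G) (hP : P.card = n + 1)
    (hb : ∀ x : G, ∃ a ∈ P, ∃ b ∈ D, a - b = x) : ∃ g : G, P = D.image (fun x => x + g) := by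
  have h2 : 1 < P.card := by rw [hP]; have := h.two_le; omega
  obtain ⟨a1, ha1, a2, ha2, hne⟩ := Finset.one_lt_card.mp h2
  obtain ⟨⟨d1, d2⟩, ⟨hd1, hd2, hd⟩, _⟩ := h.diff (a1 - a2) (sub_ne_zero.mpr hne)
  simp only at hd1 hd2 hd
  set x0 := a1 - d1 with hx0
  have hx0' : x0 = a2 - d2 := by
    rw [hx0]
    have : a1 - d1 - (a2 - d2) = (a1 - a2) - (d1 - d2) := by abel
    rw [hd, sub_self] at this
    exact sub_eq_zero.mp this
  refine ⟨x0, ?_⟩
  symm
  apply Finset.eq_of_subset_of_card_le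
  · intro q hq
    rw [mem_image] at hq
    obtain ⟨d0, hd0, rfl⟩ := hq
    by_contra hq
    choose a ha b hbD hab using hb
    -- injectivity
    have hinj : ∀ d ∈ D, ∀ d' ∈ D, a (d0 + x0 - d) = a (d0 + x0 - d') → d = d' := by
      intro d hdD d' hdD' he
      have e1 := hab (d0 + x0 - d)
      have e2 := hab (d0 + x0 - d')
      rw [he] at e1
      have e3 : b (d0 + x0 - d) - d = b (d0 + x0 - d') - d' := by
        rw [aux1 _ _ _ _ e1, aux1 _ _ _ _ e2]
      rcases h.uniq (hbD _) hdD (hbD _) hdD' e3 with ⟨g1, g2⟩ | ⟨g1, g2⟩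
      · exfalso
        apply hq
        have : a (d0 + x0 - d) = d0 + x0 := by
          have h3 := aux1 _ _ _ _ (hab (d0 + x0 - d))
          rw [g1, sub_self] at h3
          exact sub_eq_zero.mp h3.symm
        rw [← this]
        exact ha _
      · exact g2
    have hsurj : D.image (fun d => a (d0 + x0 - d)) = P := by
      apply Finset.eq_of_subset_of_card_le
      · intro y hy
        rw [mem_image] at hy
        obtain ⟨d, _, rfl⟩ := hy
        exact ha _
      · rw [hP, Finset.card_image_of_injOn (fun d hd d' hd' he => hinj d hd d' hd' he), h.card_D]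
    -- the value for a point of the line
    have key : ∀ e ∈ D, e + x0 ∈ P → ∀ d ∈ D, a (d0 + x0 - d) = e + x0 → d = d0 := by
      intro e he heP d hdD hea
      have e1 := hab (d0 + x0 - d)
      rw [hea] at e1
      have e2 : e - b (d0 + x0 - d) = d0 - d := by
        have : e - b (d0 + x0 - d) = (e + x0 - b (d0 + x0 - d)) - x0 := by abel
        rw [this, e1]; abel
      rcases h.uniq he (hbD _) hd0 hdD e2 with ⟨_, g2⟩ | ⟨g1, _⟩
      · exact g2.symm
      · exfalso
        apply hq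
        rw [← g1]; exact heP
    have m1 : d1 + x0 = a1 := by rw [hx0]; abel
    have m2 : d2 + x0 = a2 := by rw [hx0']; abel
    have ha1' := ha1
    have ha2' := ha2
    rw [← hsurj, mem_image] at ha1' ha2'
    obtain ⟨u1, hu1, hu1'⟩ := ha1'
    obtain ⟨u2, hu2, hu2'⟩ := ha2'
    have k1 := key d1 hd1 (by rw [m1]; exact ha1) u1 hu1 (by rw [m1]; exact hu1')
    have k2 := key d2 hd2 (by rw [m2]; exact ha2) u2 hu2 (by rw [m2]; exact hu2')
    apply hne
    rw [← hu1', ← hu2', k1, k2]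
  · rw [hP, Finset.card_image_of_injective _ (add_left_injective x0), h.card_D]

end basic

section ring

variable {G : Type*} [AddCommGroup G] [Fintype G] [DecidableEq G] {n : ℕ} {D : Finset G}
variable (k : Type*) [CommRing k]

/-- coefficient at `x` -/
noncomputable def cf (x : G) : AddMonoidAlgebra k G →+ k :=
  (Finsupp.applyAddHom x).comp (AddMonoidAlgebra.coeffAddEquiv (R := k) (M := G)).toAddMonoidHom

/-- group elements -/
noncomputable def dl (x : G) : AddMonoidAlgebra k G := AddMonoidAlgebra.single x 1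

omit [Fintype G] in
theorem cf_dl (x y : G) : cf k x (dl k y) = if y = x then 1 else 0 := by
  unfold cf dl
  exact Finsupp.single_apply

omit [Fintype G] [DecidableEq G] in
theorem dl_mul (x y : G) : dl k x * dl k y = dl k (x + y) := by
  unfold dl
  rw [AddMonoidAlgebra.single_mul_single, one_mul]

omit [Fintype G] [DecidableEq G] in
theorem dl_zero : dl k (0 : G) = 1 := rfl

omit [Fintype G] [DecidableEq G] in
theorem dl_pow (x : G) (m : ℕ) : dl k x ^ m = dl k (m • x) := by
  unfold dl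
  rw [AddMonoidAlgebra.single_pow, one_pow]

omit [Fintype G] [DecidableEq G] in
theorem cf_nat_mul (x : G) (m : ℕ) (y : AddMonoidAlgebra k G) :
    cf k x ((m : AddMonoidAlgebra k G) * y) = (m : k) * cf k x y := by
  rw [← nsmul_eq_mul, map_nsmul, nsmul_eq_mul]

omit [Fintype G] [DecidableEq G] in
theorem cf_int_mul (x : G) (m : ℤ) (y : AddMonoidAlgebra k G) :
    cf k x ((m : AddMonoidAlgebra k G) * y) = (m : k) * cf k x y := by
  rw [← zsmul_eq_mul, map_zsmul, zsmul_eq_mul]

/-- sum over a set -/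
noncomputable def sm (D : Finset G) : AddMonoidAlgebra k G := ∑ d ∈ D, dl k d

/-- sum of the negatives over a set -/
noncomputable def smn (D : Finset G) : AddMonoidAlgebra k G := ∑ d ∈ D, dl k (-d)

omit [DecidableEq G] in
theorem dl_mul_univ (x : G) : dl k x * sm k (univ : Finset G) = sm k univ := by
  unfold sm
  rw [Finset.mul_sum]
  simp_rw [dl_mul]
  exact Fintype.sum_equiv (Equiv.addLeft x) _ _ (fun y => rfl)

omit [DecidableEq G] in
theorem sm_mul_univ (D : Finset G) : sm k D * sm k (univ : Finset G) =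
    (D.card : AddMonoidAlgebra k G) * sm k univ := by
  rw [sm, Finset.sum_mul]
  simp_rw [dl_mul_univ]
  rw [Finset.sum_const, nsmul_eq_mul]

omit [DecidableEq G] in
theorem smn_mul_univ (D : Finset G) : smn k D * sm k (univ : Finset G) =
    (D.card : AddMonoidAlgebra k G) * sm k univ := by
  rw [smn, Finset.sum_mul]
  simp_rw [dl_mul_univ]
  rw [Finset.sum_const, nsmul_eq_mul]

theorem cf_univ (x : G) : cf k x (sm k (univ : Finset G)) = 1 := by
  rw [sm, map_sum]
  simp_rw [cf_dl]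
  simp

theorem card_diff (h : IsPDS n D) (x : G) :
    ((D ×ˢ D).filter (fun p => p.1 - p.2 = x)).card = if x = 0 then n + 1 else 1 := by
  split_ifs with hx
  · subst hx
    rw [← h.card_D]
    have : (D ×ˢ D).filter (fun p => p.1 - p.2 = 0) = D.image (fun d => (d, d)) := by
      ext ⟨a, b⟩
      simp only [mem_filter, mem_product, mem_image, Prod.mk.injEq, sub_eq_zero]
      constructor
      · rintro ⟨⟨ha, _⟩, rfl⟩
        exact ⟨a, ha, rfl, rfl⟩
      · rintro ⟨d, hd, rfl, rfl⟩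
        exact ⟨⟨hd, hd⟩, rfl⟩
    rw [this, Finset.card_image_of_injective]
    intro a b hab
    simpa using congrArg Prod.fst hab
  · obtain ⟨p, hp, hu⟩ := h.diff x hx
    rw [Finset.card_eq_one]
    refine ⟨p, ?_⟩
    ext q
    simp only [mem_filter, mem_product, mem_singleton]
    constructor
    · rintro ⟨⟨h1, h2⟩, h3⟩
      exact hu q ⟨h1, h2, h3⟩
    · rintro rfl
      exact ⟨⟨hp.1, hp.2.1⟩, hp.2.2⟩

theorem sm_mul_smn (h : IsPDS n D) :
    sm k D * smn k D = (n : AddMonoidAlgebra k G) + sm k univ := by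
  have hext : ∀ y z : AddMonoidAlgebra k G, (∀ x, cf k x y = cf k x z) → y = z := by
    intro y z hyz
    apply AddMonoidAlgebra.coeffAddEquiv.injective
    ext x
    exact hyz x
  apply hext
  intro x
  rw [sm, smn, Finset.sum_mul_sum, ← Finset.sum_product', map_sum, map_add, cf_univ]
  simp_rw [dl_mul, cf_dl, ← sub_eq_add_neg]
  rw [Finset.sum_boole, card_diff h x]
  have h1 : cf k x ((n : AddMonoidAlgebra k G)) = if (0 : G) = x then (n : k) else 0 := by
    have := cf_nat_mul k x n (dl k 0)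
    rw [dl_zero, mul_one] at this
    rw [this, ← dl_zero, cf_dl]
    split_ifs <;> simp
  rw [h1]
  by_cases hx : x = 0
  · subst hx; simp
  · rw [if_neg hx, if_neg (Ne.symm hx)]; simp

end ring

section mult

variable {G : Type*} [AddCommGroup G] [Fintype G] [DecidableEq G] {n : ℕ} {D : Finset G}

omit [Fintype G] [DecidableEq G] in
theorem sm_pow_char (p : ℕ) [hp : Fact p.Prime] (D : Finset G) :
    (sm (ZMod p) D) ^ p = ∑ d ∈ D, dl (ZMod p) (p • d) := by
  have : CharP (AddMonoidAlgebra (ZMod p) G) p :=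
    charP_of_injective_algebraMap (algebraMap (ZMod p) (AddMonoidAlgebra (ZMod p) G)).injective p
  unfold sm
  rw [sum_pow_char]
  simp_rw [dl_pow]

/-- the multiplier theorem for planar difference sets -/
theorem multiplier_thm (h : IsPDS n D) (p : ℕ) (hp : p.Prime) (hpn : p ∣ n) :
    IsMultiplier p D := by
  have : Fact p.Prime := ⟨hp⟩
  have : CharP (AddMonoidAlgebra (ZMod p) G) p :=
    charP_of_injective_algebraMap (algebraMap (ZMod p) (AddMonoidAlgebra (ZMod p) G)).injective p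
  have hcop : Nat.Coprime p (Fintype.card G) := by
    rw [h.card_G]
    exact Nat.Coprime.coprime_dvd_left hpn (copn n).symm
  refine ⟨hcop, ?_⟩
  have hn0 : (n : AddMonoidAlgebra (ZMod p) G) = 0 := (CharP.cast_eq_zero_iff _ p n).mpr hpn
  have key : (∑ d ∈ D, dl (ZMod p) (p • d)) * smn (ZMod p) D = sm (ZMod p) univ := by
    rw [← sm_pow_char]
    obtain ⟨q, hq⟩ : ∃ q, p = q + 1 := ⟨p - 1, by have := hp.pos; omega⟩
    have e1 : (sm (ZMod p) D) ^ p * smn (ZMod p) D =
        (sm (ZMod p) D) ^ (p - 1) * (sm (ZMod p) D * smn (ZMod p) D) := by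
      rw [← mul_assoc, ← pow_succ, Nat.sub_add_cancel hp.one_le]
    rw [e1, sm_mul_smn _ h, hn0, zero_add]
    have e2 : ∀ m : ℕ, (sm (ZMod p) D) ^ m * sm (ZMod p) (univ : Finset G) =
        sm (ZMod p) univ := by
      intro m
      induction m with
      | zero => simp
      | succ m ih =>
        rw [pow_succ, mul_assoc, sm_mul_univ, h.card_D, Nat.cast_add, hn0]
        simpa using ih
    exact e2 _
  apply block h
  · rw [Finset.card_image_of_injective _ (smul_inj p hcop), h.card_D]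
  · intro x
    by_contra hcon
    push Not at hcon
    have h1 := congrArg (cf (ZMod p) x) key
    rw [cf_univ, smn, Finset.sum_mul_sum, ← Finset.sum_product', map_sum] at h1
    simp_rw [dl_mul, cf_dl, ← sub_eq_add_neg] at h1
    rw [Finset.sum_eq_zero] at h1
    · exact zero_ne_one h1
    · rintro ⟨a, b⟩ hab
      rw [mem_product] at hab
      rw [if_neg]
      exact hcon (p • a) (mem_image_of_mem _ hab.1) b hab.2

/-- the identity modulo `7` -/
theorem mod_seven (h : IsPDS n D) (h7 : D.image (fun x => 7 • x) = D)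
    (hcop : Nat.Coprime 7 (Fintype.card G)) :
    ((n : ZMod 7) ^ 4 - n) * ((((D ×ˢ D ×ˢ D).filter
      (fun p => p.1 + p.2.1 + p.2.2 = 0)).card : ZMod 7) * (n ^ 2 + n + 1) - (n + 1) ^ 3) = 0 := by
  have : Fact (Nat.Prime 7) := ⟨by norm_num⟩
  set R := AddMonoidAlgebra (ZMod 7) G with hR
  set A : R := sm (ZMod 7) D with hA
  set B : R := smn (ZMod 7) D with hB
  set s : R := sm (ZMod 7) univ with hs
  have hAB : A * B = (n : R) + s := sm_mul_smn _ h
  have hAs : A * s = ((n : R) + 1) * s := by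
    have := sm_mul_univ (ZMod 7) D
    rw [h.card_D] at this
    push_cast at this
    exact this
  have hBs : B * s = ((n : R) + 1) * s := by
    have := smn_mul_univ (ZMod 7) D
    rw [h.card_D] at this
    push_cast at this
    exact this
  have hss : s * s = ((n : R) ^ 2 + n + 1) * s := by
    have := sm_mul_univ (ZMod 7) (univ : Finset G)
    rw [Finset.card_univ, h.card_G] at this
    push_cast at this
    exact this
  have hA7 : A ^ 7 = A := by
    rw [hA, sm_pow_char]
    conv_rhs => rw [sm, ← h7, Finset.sum_image (fun a _ b _ hab => smul_inj 7 hcop hab)]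
  have e1 : A ^ 6 * ((n : R) + s) = (n : R) + s := by
    rw [← hAB]
    calc A ^ 6 * (A * B) = A ^ 7 * B := by ring
      _ = A * B := by rw [hA7]
  have hAk : ∀ m : ℕ, A ^ m * s = ((n : R) + 1) ^ m * s := by
    intro m
    induction m with
    | zero => simp
    | succ m ih => rw [pow_succ, mul_assoc, hAs, ← mul_assoc, mul_comm (A ^ m), mul_assoc, ih]; ring
  have hBk : ∀ m : ℕ, B ^ m * s = ((n : R) + 1) ^ m * s := by
    intro m
    induction m with
    | zero => simp
    | succ m ih => rw [pow_succ, mul_assoc, hBs, ← mul_assoc, mul_comm (B ^ m), mul_assoc, ih]; ring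
  have e2 : (n : R) * A ^ 6 = n + s - ((n : R) + 1) ^ 6 * s := by
    have := hAk 6
    linear_combination e1 - this
  have e3 : A ^ 6 * B ^ 3 = A ^ 3 * ((n : R) + s) ^ 3 := by rw [← hAB]; ring
  have hA3 := hAk 3
  have hB3 := hBk 3
  set v : R := (n : R) ^ 2 + n + 1 with hv
  have e4 : A ^ 3 * ((n : R) + s) ^ 3 = (n : R) ^ 3 * A ^ 3 +
      ((n : R) + 1) ^ 3 * (3 * (n : R) ^ 2 + 3 * n * v + v ^ 2) * s := by
    have q1 : A ^ 3 * s * s = ((n : R) + 1) ^ 3 * v * s := by
      rw [hA3, mul_assoc, hss]; ring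
    have q2 : A ^ 3 * s * s * s = ((n : R) + 1) ^ 3 * v ^ 2 * s := by
      rw [q1, mul_assoc, hss]; ring
    linear_combination (3 * (n : R) ^ 2) * hA3 + (3 * (n : R)) * q1 + q2
  have e5 : (n : R) ^ 4 * A ^ 3 - n * B ^ 3 = (((n : R) + 1) ^ 3 - ((n : R) + 1) ^ 9 -
      n * ((n : R) + 1) ^ 3 * (3 * (n : R) ^ 2 + 3 * n * v + v ^ 2)) * s := by
    linear_combination (-(n : R)) * e4 + (-(n : R)) * e3 + B ^ 3 * e2 +
      (1 - ((n : R) + 1) ^ 6) * hB3
  set K : ℤ := ((n : ℤ) + 1) ^ 3 - ((n : ℤ) + 1) ^ 9 -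
      n * ((n : ℤ) + 1) ^ 3 * (3 * (n : ℤ) ^ 2 + 3 * n * ((n : ℤ) ^ 2 + n + 1) +
        ((n : ℤ) ^ 2 + n + 1) ^ 2) with hK
  have hKR : (K : R) = (((n : R) + 1) ^ 3 - ((n : R) + 1) ^ 9 -
      n * ((n : R) + 1) ^ 3 * (3 * (n : R) ^ 2 + 3 * n * v + v ^ 2)) := by
    rw [hK, hv]; push_cast; ring
  rw [← hKR] at e5
  have e6 : (((n : ℤ) ^ 4 : ℤ) : R) * A ^ 3 = ((n : ℤ) : R) * B ^ 3 + (K : R) * s := by
    push_cast
    linear_combination e5
  have e7 : ((((n : ℤ) ^ 4 * ((n : ℤ) + 1) ^ 3 : ℤ)) : R) * s =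
      (((n : ℤ) * ((n : ℤ) + 1) ^ 3 : ℤ) : R) * s + ((K * ((n : ℤ) ^ 2 + n + 1) : ℤ) : R) * s := by
    push_cast
    have : (K : R) * (s * s) = (K : R) * v * s := by rw [hss]; ring
    rw [hv] at this
    linear_combination s * e5 - (n : R) ^ 4 * hA3 + (n : R) * hB3 + this
  have hTA : cf (ZMod 7) 0 (A ^ 3) = (((D ×ˢ D ×ˢ D).filter
      (fun p => p.1 + p.2.1 + p.2.2 = 0)).card : ZMod 7) := by
    have h1 : A ^ 3 = ∑ p ∈ D ×ˢ D ×ˢ D, dl (ZMod 7) (p.1 + (p.2.1 + p.2.2)) := by
      simp only [Finset.sum_product, ← dl_mul, ← Finset.mul_sum, ← Finset.sum_mul]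
      rw [hA, sm]; ring
    rw [h1, map_sum]
    simp_rw [cf_dl]
    rw [Finset.sum_boole]
    simp only [← add_assoc]
  have hTB : cf (ZMod 7) 0 (B ^ 3) = (((D ×ˢ D ×ˢ D).filter
      (fun p => p.1 + p.2.1 + p.2.2 = 0)).card : ZMod 7) := by
    have h1 : B ^ 3 = ∑ p ∈ D ×ˢ D ×ˢ D, dl (ZMod 7) (-p.1 + (-p.2.1 + -p.2.2)) := by
      simp only [Finset.sum_product, ← dl_mul, ← Finset.mul_sum, ← Finset.sum_mul]
      rw [hB, smn]; ring
    rw [h1, map_sum]
    simp_rw [cf_dl]
    rw [Finset.sum_boole]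
    congr 2
    apply Finset.filter_congr
    intro p _
    rw [← neg_eq_zero]
    have : -(-p.1 + (-p.2.1 + -p.2.2)) = p.1 + p.2.1 + p.2.2 := by abel
    rw [this]
  have f6 := congrArg (cf (ZMod 7) 0) e6
  have f7 := congrArg (cf (ZMod 7) 0) e7
  rw [map_add, cf_int_mul, cf_int_mul, cf_int_mul, hTA, hTB, hs, cf_univ] at f6
  rw [map_add, cf_int_mul, cf_int_mul, cf_int_mul, hs, cf_univ] at f7
  push_cast at f6 f7
  linear_combination ((n : ZMod 7) ^ 2 + n + 1) * f6 - f7

end mult

section counts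

variable {G : Type*} [AddCommGroup G] [Fintype G] [DecidableEq G] {n : ℕ} {D : Finset G}

omit [DecidableEq G] in
theorem card_smul (h : IsPDS n D) (x : G) : (n ^ 2 + n + 1) • x = 0 := by
  rw [← h.card_G]
  exact card_nsmul_eq_zero

omit [DecidableEq G] in
theorem sq_smul (h : IsPDS n D) (x : G) : x + n • x + n • n • x = 0 := by
  have := card_smul h x
  rw [add_smul, add_smul, one_smul, sq, mul_smul] at this
  rw [← this]; abel

omit [DecidableEq G] in
theorem three_smul_of_fixed (h : IsPDS n D) (x : G) (hx : n • x = x) : 3 • x = 0 := by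
  have := sq_smul h x
  rw [hx, hx] at this
  rw [← this]; abel

/-- the number of triples with sum zero -/
theorem triples (h : IsPDS n D) (hn : ∀ d ∈ D, n • d ∈ D) :
    ((D ×ˢ D ×ˢ D).filter (fun p => p.1 + p.2.1 + p.2.2 = 0)).card +
      (D.filter (fun d => n • d = d)).card = 2 * (n + 1) := by
  have hcop : Nat.Coprime n (Fintype.card G) := by rw [h.card_G]; exact (copn n).symm
  rw [Finset.card_filter, Finset.sum_product, Finset.card_filter, ← Finset.sum_add_distrib]
  simp only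
  have : ∀ a ∈ D, ((∑ q ∈ D ×ˢ D, if a + q.1 + q.2 = 0 then 1 else 0) +
      if n • a = a then 1 else 0) = 2 := by
    intro a ha
    rw [← Finset.card_filter]
    have hsq := sq_smul h a
    have hset : (D ×ˢ D).filter (fun q => a + q.1 + q.2 = 0) =
        {(n • a, n • n • a), (n • n • a, n • a)} := by
      ext ⟨b, c⟩
      simp only [mem_filter, mem_product, mem_insert, mem_singleton, Prod.mk.injEq]
      constructor
      · rintro ⟨⟨hb, hc⟩, h0⟩
        have e : b - n • a = n • n • a - c := by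
          have : b - n • a - (n • n • a - c) = (a + b + c) - (a + n • a + n • n • a) := by abel
          rw [h0, hsq, sub_self] at this
          exact sub_eq_zero.mp this
        rcases h.uniq hb (hn a ha) (hn _ (hn a ha)) hc e with ⟨h1, h2⟩ | ⟨h1, h2⟩
        · left; exact ⟨h1, h2.symm⟩
        · right; exact ⟨h1, h2.symm⟩
      · rintro (⟨rfl, rfl⟩ | ⟨rfl, rfl⟩)
        · exact ⟨⟨hn a ha, hn _ (hn a ha)⟩, hsq⟩
        · refine ⟨⟨hn _ (hn a ha), hn a ha⟩, ?_⟩
          rw [← hsq]; abel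
    rw [hset]
    by_cases hfix : n • a = a
    · rw [if_pos hfix, hfix, hfix]; simp
    · rw [if_neg hfix, Finset.card_pair]
      intro he
      apply hfix
      have h1 : n • a = n • n • a := congrArg Prod.fst he
      exact (smul_inj n hcop h1).symm
  rw [Finset.sum_congr rfl this, Finset.sum_const, h.card_D]
  simp [mul_comm]

theorem nine_not_dvd (n : ℕ) : ¬ 9 ∣ n ^ 2 + n + 1 := by
  intro h
  have h1 : (n ^ 2 + n + 1) % 9 = 0 := Nat.mod_eq_zero_of_dvd h
  have h2 : n % 9 < 9 := Nat.mod_lt _ (by norm_num)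
  rw [Nat.add_mod, Nat.add_mod (n ^ 2), Nat.pow_mod] at h1
  generalize n % 9 = r at *
  interval_cases r <;> simp at h1

theorem card_three_torsion (h : IsPDS n D) :
    ((univ : Finset G).filter (fun g => 3 • g = 0)).card ≤ 3 := by
  set H : AddSubgroup G := (nsmulAddMonoidHom (α := G) 3).ker with hH
  have hmem : ∀ g : G, g ∈ H ↔ 3 • g = 0 := by
    intro g
    rw [hH, AddMonoidHom.mem_ker]; rfl
  have hcard : ((univ : Finset G).filter (fun g => 3 • g = 0)).card = Nat.card H := by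
    rw [← Fintype.card_subtype, ← Nat.card_eq_fintype_card]
    exact Nat.card_congr (Equiv.subtypeEquivRight (fun g => (hmem g).symm))
  rw [hcard]
  have hdvd : Nat.card H ∣ n ^ 2 + n + 1 := by
    rw [← h.card_G, ← Nat.card_eq_fintype_card]
    exact AddSubgroup.card_addSubgroup_dvd_card H
  have hpos : Nat.card H ≠ 0 := Nat.card_pos.ne'
  have h3 : ∀ {d : ℕ}, d.Prime → d ∣ Nat.card H → d = 3 := by
    intro d hd hdv
    have : Fact d.Prime := ⟨hd⟩
    obtain ⟨x, hx⟩ := exists_prime_addOrderOf_dvd_card' d hdv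
    have hx3 : 3 • x = 0 := by
      apply Subtype.ext
      have := (hmem x.1).mp x.2
      simpa using this
    have : addOrderOf x ∣ 3 := addOrderOf_dvd_of_nsmul_eq_zero hx3
    rw [hx] at this
    exact (Nat.prime_dvd_prime_iff_eq hd (by norm_num)).mp this
  have hpow := Nat.eq_prime_pow_of_unique_prime_dvd hpos h3
  by_contra hcon
  push Not at hcon
  apply nine_not_dvd n
  refine dvd_trans ?_ hdvd
  rw [hpow]
  have hk : 2 ≤ (Nat.card H).primeFactorsList.length := by
    by_contra hk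
    have : (Nat.card H).primeFactorsList.length ≤ 1 := by omega
    have := Nat.pow_le_pow_right (n := 3) (by norm_num) this
    rw [← hpow] at this
    omega
  calc 9 = 3 ^ 2 := by norm_num
    _ ∣ _ := pow_dvd_pow 3 hk

omit [DecidableEq G] in
theorem three_torsion_trivial (h : IsPDS n D) (hn : n % 3 ≠ 1) (g : G) (hg : 3 • g = 0) :
    g = 0 := by
  have hcop : Nat.Coprime 3 (Fintype.card G) := by
    rw [h.card_G, Nat.Prime.coprime_iff_not_dvd (by norm_num)]
    intro hd
    have h1 : (n ^ 2 + n + 1) % 3 = 0 := Nat.mod_eq_zero_of_dvd hd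
    have h2 : n % 3 < 3 := Nat.mod_lt _ (by norm_num)
    rw [Nat.add_mod, Nat.add_mod (n ^ 2), Nat.pow_mod] at h1
    generalize n % 3 = r at *
    interval_cases r <;> simp at h1 hn
  exact smul_inj 3 hcop (by simpa using hg)

/-- not all elements of `D` are `3`-torsion -/
theorem not_all_torsion (h : IsPDS n D) (hall : ∀ d ∈ D, 3 • d = 0) : False := by
  by_cases hn : n % 3 = 1
  · have h1 : D ⊆ (univ : Finset G).filter (fun g => 3 • g = 0) := by
      intro d hd
      simp [hall d hd]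
    have h2 := (Finset.card_le_card h1).trans (card_three_torsion h)
    rw [h.card_D] at h2
    have := h.two_le
    omega
  · have h1 : D ⊆ {0} := by
      intro d hd
      rw [mem_singleton]
      exact three_torsion_trivial h hn d (hall d hd)
    have h2 := Finset.card_le_card h1
    rw [h.card_D] at h2
    have := h.two_le
    simp at h2
    omega

theorem fixed_count_mod (h : IsPDS n D) (hn : ∀ d ∈ D, n • d ∈ D) :
    (n + 1) % 3 = (D.filter (fun d => n • d = d)).card % 3 := by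
  have : Fact (Nat.Prime 3) := ⟨by norm_num⟩
  let f : Function.End {d // d ∈ D} := fun d => ⟨n • d.1, hn d.1 d.2⟩
  have hf : f ^ 3 ^ 1 = 1 := by
    funext d
    apply Subtype.ext
    have h1 : ((f ^ 3 ^ 1) d).1 = n • n • n • d.1 := rfl
    rw [h1]
    have e1 := sq_smul h d.1
    have e2 := sq_smul h (n • d.1)
    have : n • n • n • d.1 - d.1 = (n • d.1 + n • n • d.1 + n • n • n • d.1) -
        (d.1 + n • d.1 + n • n • d.1) := by abel
    rw [e1, e2, sub_self] at this
    exact sub_eq_zero.mp this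
  have h1 := Equiv.Perm.card_fixedPoints_modEq hf
  have h2 : Fintype.card {d // d ∈ D} = n + 1 := by simp [h.card_D]
  have h3 : Fintype.card f.fixedPoints = (D.filter (fun d => n • d = d)).card := by
    rw [← Fintype.card_coe]
    apply Fintype.card_congr
    exact
    { toFun := fun x => ⟨x.1.1, by
        rw [mem_filter]
        exact ⟨x.1.2, congrArg Subtype.val x.2⟩⟩
      invFun := fun x => ⟨⟨x.1, (mem_filter.mp x.2).1⟩, Subtype.ext (mem_filter.mp x.2).2⟩
      left_inv := fun x => rfl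
      right_inv := fun x => rfl }
  rw [h2, h3] at h1
  exact h1

theorem fixed_count_one (h : IsPDS n D) (hn : ∀ d ∈ D, n • d ∈ D) (h3 : n % 3 = 1) :
    (D.filter (fun d => n • d = d)).card = 2 := by
  have h1 := fixed_count_mod h hn
  have h2 : (D.filter (fun d => n • d = d)) ⊆ (univ : Finset G).filter (fun g => 3 • g = 0) := by
    intro d hd
    rw [mem_filter] at hd ⊢
    exact ⟨mem_univ _, three_smul_of_fixed h d hd.2⟩
  have h4 := (Finset.card_le_card h2).trans (card_three_torsion h)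
  omega

theorem fixed_count_two (h : IsPDS n D) (hn : ∀ d ∈ D, n • d ∈ D) (h3 : n % 3 = 2) :
    (D.filter (fun d => n • d = d)).card = 0 := by
  have h1 := fixed_count_mod h hn
  have h2 : (D.filter (fun d => n • d = d)) ⊆ {0} := by
    intro d hd
    rw [mem_filter] at hd
    rw [mem_singleton]
    exact three_torsion_trivial h (by omega) d (three_smul_of_fixed h d hd.2)
  have h4 := (Finset.card_le_card h2)
  simp only [card_singleton] at h4
  omega

end counts

section mann

variable {G : Type*} [AddCommGroup G] [Fintype G] [DecidableEq G] {n : ℕ} {D : Finset G}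

/-- `t` maps `D` into itself -/
def Fx (D : Finset G) (t : ℕ) : Prop := ∀ d ∈ D, t • d ∈ D

omit [Fintype G] [DecidableEq G] in
theorem Fx.mul {a b : ℕ} (ha : Fx D a) (hb : Fx D b) : Fx D (a * b) := by
  intro d hd
  rw [mul_smul]
  exact ha _ (hb d hd)

omit [Fintype G] [DecidableEq G] in
theorem Fx.one : Fx D 1 := by
  intro d hd
  rwa [one_smul]

theorem fx_of_mult (h : IsPDS n D) (h0 : ∑ x ∈ D, x = 0) {t : ℕ} (ht : IsMultiplier t D) :
    D.image (fun x => t • x) = D := by
  obtain ⟨h1, g, h2⟩ := ht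
  exact image_eq_of_zero_sum h h0 t h1 g h2

theorem Fx_of_mult (h : IsPDS n D) (h0 : ∑ x ∈ D, x = 0) {t : ℕ} (ht : IsMultiplier t D) :
    Fx D t := by
  intro d hd
  have := fx_of_mult h h0 ht
  rw [← this]
  exact mem_image_of_mem _ hd

theorem Fx_dvd (h : IsPDS n D) (h0 : ∑ x ∈ D, x = 0) : ∀ m : ℕ, m ∣ n → Fx D m := by
  intro m
  induction m using Nat.recOnMul with
  | zero =>
    intro hm
    have := h.two_le
    rw [zero_dvd_iff] at hm
    omega
  | one => intro _; exact Fx.one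
  | prime p hp => intro hm; exact Fx_of_mult h h0 (multiplier_thm h p hp hm)
  | mul a b ha hb =>
    intro hm
    exact (ha (dvd_trans (dvd_mul_right a b) hm)).mul (hb (dvd_trans (dvd_mul_left b a) hm))

omit [DecidableEq G] in
/-- torsion bookkeeping -/
theorem tors (h : IsPDS n D) (h7 : Nat.Coprime 7 (Fintype.card G)) (p : ℕ) (hpn : p ∣ n)
    (a c e K : ℕ) (hK : K ∣ 2 ^ a * 7 ^ c * p ^ e * 9) (d : G) (hd : K • d = 0) : 3 • d = 0 := by
  set o := addOrderOf d with ho
  have h1 : o ∣ K := addOrderOf_dvd_of_nsmul_eq_zero hd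
  have h2 : o ∣ n ^ 2 + n + 1 := addOrderOf_dvd_of_nsmul_eq_zero (card_smul h d)
  have c2 : Nat.Coprime o 2 := by
    apply Nat.Coprime.coprime_dvd_left h2
    rw [Nat.coprime_comm, Nat.Prime.coprime_iff_not_dvd (by norm_num)]
    intro hdv
    have : (n ^ 2 + n + 1) % 2 = 0 := Nat.mod_eq_zero_of_dvd hdv
    have h3 : (n ^ 2 + n) % 2 = 0 := by
      rcases Nat.mod_two_eq_zero_or_one n with h | h <;> simp [Nat.add_mod, Nat.pow_mod, h]
    omega
  have c7 : Nat.Coprime o 7 := by
    apply Nat.Coprime.coprime_dvd_left h2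
    rw [h.card_G] at h7
    exact h7.symm
  have cp : Nat.Coprime o p := by
    apply Nat.Coprime.coprime_dvd_left h2
    exact Nat.Coprime.coprime_dvd_right hpn (copn n)
  have h4 : o ∣ 9 := by
    have h5 : o ∣ 2 ^ a * 7 ^ c * p ^ e * 9 := h1.trans hK
    apply Nat.Coprime.dvd_of_dvd_mul_left _ h5
    exact ((c2.pow_right a).mul_right (c7.pow_right c)).mul_right (cp.pow_right e)
  have h6 : o ∣ 3 := by
    have h7' : o ≤ 9 := Nat.le_of_dvd (by norm_num) h4
    have h9 : o ≠ 9 := by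
      intro h9
      rw [h9] at h2
      exact nine_not_dvd n h2
    interval_cases o <;> omega
  exact (addOrderOf_dvd_iff_nsmul_eq_zero).mp h6

/-- Mann's test -/
theorem mann (h : IsPDS n D) (h7 : Nat.Coprime 7 (Fintype.card G)) (p : ℕ) (hpn : p ∣ n)
    (t1 t2 t3 t4 : ℕ) (f1 : Fx D t1) (f2 : Fx D t2) (f3 : Fx D t3) (f4 : Fx D t4)
    (hs : t1 + t4 = t2 + t3) (h12 : t2 ≤ t1) (h13 : t3 ≤ t1)
    (a c e a' c' e' : ℕ) (hK : (t1 - t2) ∣ 2 ^ a * 7 ^ c * p ^ e * 9)
    (hK' : (t1 - t3) ∣ 2 ^ a' * 7 ^ c' * p ^ e' * 9) : False := by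
  apply not_all_torsion h
  intro d hd
  have he : t1 • d - t2 • d = t3 • d - t4 • d := by
    have e1 : (t1 + t4) • d = (t2 + t3) • d := by rw [hs]
    rw [add_smul, add_smul] at e1
    have : t1 • d - t2 • d - (t3 • d - t4 • d) = (t1 • d + t4 • d) - (t2 • d + t3 • d) := by abel
    rw [e1, sub_self] at this
    exact sub_eq_zero.mp this
  rcases h.uniq (f1 d hd) (f2 d hd) (f3 d hd) (f4 d hd) he with ⟨g1, _⟩ | ⟨g1, _⟩
  · apply tors h h7 p hpn a c e (t1 - t2) hK d
    rw [sub_nsmul d h12, g1, add_neg_cancel]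
  · apply tors h h7 p hpn a' c' e' (t1 - t3) hK' d
    rw [sub_nsmul d h13, g1, add_neg_cancel]

/-- excluded prime divisors of the order -/
theorem excl (h : IsPDS n D) (h7 : Nat.Coprime 7 (Fintype.card G)) (h0 : ∑ x ∈ D, x = 0)
    (hf : Fx D 7) (p : ℕ)
    (hp : p ∈ ({2, 3, 5, 13, 19, 43, 97, 337} : Finset ℕ)) : ¬ p ∣ n := by
  intro hpn
  have hfp : Fx D p := Fx_dvd h h0 p hpn
  have f49 : Fx D 49 := hf.mul hf
  have f343 : Fx D 343 := f49.mul hf
  have f1 : Fx D 1 := Fx.one
  simp only [mem_insert, mem_singleton] at hp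
  rcases hp with rfl | rfl | rfl | rfl | rfl | rfl | rfl | rfl
  · have f8 : Fx D 8 := (hfp.mul hfp).mul hfp
    exact mann h h7 2 hpn 8 7 2 1 f8 hf hfp f1 (by norm_num) (by norm_num) (by norm_num)
      1 0 0 1 0 0 (by norm_num) (by norm_num)
  · have f9 : Fx D 9 := hfp.mul hfp
    exact mann h h7 3 hpn 9 7 3 1 f9 hf hfp f1 (by norm_num) (by norm_num) (by norm_num)
      1 0 0 1 0 0 (by norm_num) (by norm_num)
  · have f25 : Fx D 25 := hfp.mul hfp
    exact mann h h7 5 hpn 49 25 25 1 f49 f25 f25 f1 (by norm_num) (by norm_num) (by norm_num)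
      3 0 0 3 0 0 (by norm_num) (by norm_num)
  · exact mann h h7 13 hpn 13 7 7 1 hfp hf hf f1 (by norm_num) (by norm_num) (by norm_num)
      1 0 0 1 0 0 (by norm_num) (by norm_num)
  · have f361 : Fx D 361 := hfp.mul hfp
    exact mann h h7 19 hpn 361 343 19 1 f361 f343 hfp f1 (by norm_num) (by norm_num) (by norm_num)
      1 0 0 1 0 1 (by norm_num) (by norm_num)
  · exact mann h h7 43 hpn 49 43 7 1 f49 hfp hf f1 (by norm_num) (by norm_num) (by norm_num)
      1 0 0 1 1 0 (by norm_num) (by norm_num)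
  · exact mann h h7 97 hpn 97 49 49 1 hfp f49 f49 f1 (by norm_num) (by norm_num) (by norm_num)
      4 0 0 4 0 0 (by norm_num) (by norm_num)
  · exact mann h h7 337 hpn 343 337 7 1 f343 hfp hf f1 (by norm_num) (by norm_num) (by norm_num)
      1 0 0 4 1 0 (by norm_num) (by norm_num)

/-- residues modulo `7` -/
theorem residues (h : IsPDS n D) (h7 : Nat.Coprime 7 (Fintype.card G)) (h0 : ∑ x ∈ D, x = 0)
    (hm : IsMultiplier 7 D) (hn7 : ¬ 7 ∣ n) :
    n % 7 = 1 ∨ (n % 7 = 3 ∧ n % 3 = 1) ∨ (n % 7 = 6 ∧ n % 3 = 2) := by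
  have hf : Fx D 7 := Fx_of_mult h h0 hm
  have h3 : ¬ 3 ∣ n := excl h h7 h0 hf 3 (by simp)
  have hn : Fx D n := Fx_dvd h h0 n dvd_rfl
  have hT := triples h hn
  have hmod := mod_seven h (fx_of_mult h h0 hm) h7
  have h24 : n % 7 ≠ 2 ∧ n % 7 ≠ 4 := by
    have hc : ¬ 7 ∣ n ^ 2 + n + 1 := by
      rw [h.card_G] at h7
      exact (Nat.Prime.coprime_iff_not_dvd (by norm_num)).mp h7
    constructor <;> intro hr <;> apply hc <;> apply Nat.dvd_of_mod_eq_zero <;>
      simp [Nat.add_mod, Nat.pow_mod, hr]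
  have hn7' : n % 7 ≠ 0 := fun hh => hn7 (Nat.dvd_of_mod_eq_zero hh)
  have hcast : (n : ZMod 7) = ((n % 7 : ℕ) : ZMod 7) := by simp
  have h3' : n % 3 ≠ 0 := fun hh => h3 (Nat.dvd_of_mod_eq_zero hh)
  set T := ((D ×ˢ D ×ˢ D).filter (fun p => p.1 + p.2.1 + p.2.2 = 0)).card with hTdef
  have hTc : (T : ZMod 7) + ((D.filter (fun d => n • d = d)).card : ZMod 7) =
      2 * ((n : ZMod 7) + 1) := by
    have := congrArg (Nat.cast : ℕ → ZMod 7) hT
    push_cast at this
    exact this
  have h33 : n % 3 = 1 ∨ n % 3 = 2 := by omega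
  have h77 : n % 7 = 1 ∨ n % 7 = 3 ∨ n % 7 = 5 ∨ n % 7 = 6 := by omega
  rcases h33 with h33 | h33
  · rw [fixed_count_one h hn h33] at hTc
    have hT2 : (T : ZMod 7) = 2 * ((n : ZMod 7) + 1) - 2 := by
      rw [← hTc]; push_cast; ring
    rw [hT2, hcast] at hmod
    rcases h77 with h77 | h77 | h77 | h77
    · exact Or.inl h77
    · exact Or.inr (Or.inl ⟨h77, h33⟩)
    · exfalso
      rw [h77] at hmod
      revert hmod; decide
    · exfalso
      rw [h77] at hmod
      revert hmod; decide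
  · rw [fixed_count_two h hn h33] at hTc
    have hT2 : (T : ZMod 7) = 2 * ((n : ZMod 7) + 1) := by
      rw [← hTc]; simp
    rw [hT2, hcast] at hmod
    rcases h77 with h77 | h77 | h77 | h77
    · exact Or.inl h77
    · exfalso
      rw [h77] at hmod
      revert hmod; decide
    · exfalso
      rw [h77] at hmod
      revert hmod; decide
    · exact Or.inr (Or.inr ⟨h77, h33⟩)

end mann

section chars

variable {G : Type*} [AddCommGroup G] [Fintype G] [DecidableEq G] {n : ℕ} {D : Finset G}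

theorem sum_image_fix (t : ℕ) (hcop : Nat.Coprime t (Fintype.card G))
    (ht : D.image (fun x => t • x) = D) (f : G → ℂ) :
    ∑ d ∈ D, f (t • d) = ∑ d ∈ D, f d := by
  conv_rhs => rw [← ht, Finset.sum_image (fun a _ b _ hab => smul_inj t hcop hab)]

theorem char_sq (h : IsPDS n D) (χ : AddChar G ℂ) (hχ : χ ≠ 0) :
    (∑ d ∈ D, χ d) * (starRingEnd ℂ) (∑ d ∈ D, χ d) = n := by
  rw [map_sum, Finset.sum_mul_sum, ← Finset.sum_product']
  have e1 : ∀ p : G × G, χ p.1 * (starRingEnd ℂ) (χ p.2) = χ (p.1 - p.2) := by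
    intro p
    rw [← AddChar.map_neg_eq_conj, ← AddChar.map_add_eq_mul, sub_eq_add_neg]
  simp_rw [e1]
  rw [← Finset.sum_fiberwise (D ×ˢ D) (fun p => p.1 - p.2) (fun p => χ (p.1 - p.2))]
  have e2 : ∀ x : G, ∑ p ∈ (D ×ˢ D).filter (fun p => p.1 - p.2 = x), χ (p.1 - p.2) =
      χ x + (if x = 0 then (n : ℂ) else 0) := by
    intro x
    have : ∀ p ∈ (D ×ˢ D).filter (fun p => p.1 - p.2 = x), χ (p.1 - p.2) = χ x := by
      intro p hp
      rw [(mem_filter.mp hp).2]
    rw [Finset.sum_congr rfl this, Finset.sum_const, card_diff h x]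
    by_cases hx : x = 0
    · subst hx; simp; ring
    · simp [hx]
  rw [Finset.sum_congr rfl (fun x _ => e2 x), Finset.sum_add_distrib,
    AddChar.sum_eq_zero_iff_ne_zero.mpr hχ]
  simp

theorem geom_zero (z : ℂ) (w : ℕ) (hz : z ^ w = 1) (hz1 : z ≠ 1) :
    ∑ j ∈ range w, z ^ j = 0 := by
  have := mul_neg_geom_sum z w
  rw [hz, sub_self] at this
  rcases mul_eq_zero.mp this with h | h
  · exact absurd (sub_eq_zero.mp h).symm hz1
  · exact h

/-- if the order is not a square, then no power of a multiplier is `-1` modulo a prime divisor of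
the group order -/
theorem no_neg_one (h : IsPDS n D) (hsq : ¬ IsSquare n) (t : ℕ)
    (hcop : Nat.Coprime t (Fintype.card G)) (ht : D.image (fun x => t • x) = D)
    (w : ℕ) (hw : w.Prime) (hwv : w ∣ n ^ 2 + n + 1) (k : ℕ) (hk : w ∣ t ^ k + 1) : False := by
  have : Fact w.Prime := ⟨hw⟩
  obtain ⟨ψ, hψ⟩ := exists_prime_orderOf_dvd_card' (G := AddChar G ℂ) w (by
    rw [Nat.card_eq_fintype_card, AddChar.card_eq, h.card_G]; exact hwv)
  have hψw : ∀ x, (ψ x) ^ w = 1 := by
    intro x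
    have h1 : ψ ^ w = 1 := by rw [← hψ]; exact pow_orderOf_eq_one ψ
    have h2 := congrArg (fun χ : AddChar G ℂ => χ x) h1
    simpa using h2
  set α : ℕ → ℂ := fun j => ∑ d ∈ D, (ψ d) ^ j with hα
  have ha : ∀ j, α (t * j) = α j := by
    intro j
    have := sum_image_fix t hcop ht (fun x => (ψ x) ^ j)
    rw [hα]
    simp only
    rw [← this]
    refine Finset.sum_congr rfl fun d _ => ?_
    rw [AddChar.map_nsmul_eq_pow, ← pow_mul]
  have ha' : ∀ m j, α (t ^ m * j) = α j := by
    intro m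
    induction m with
    | zero => intro j; simp
    | succ m ih => intro j; rw [pow_succ, mul_assoc, ih, ha]
  have hconj : ∀ j, (starRingEnd ℂ) (α j) = α j := by
    intro j
    rw [← ha' k j, hα]
    simp only
    rw [map_sum]
    rw [show (∑ x ∈ D, ψ x ^ (t ^ k * j)) = α (t ^ k * j) from rfl, ha' k j]
    rw [hα]
    simp only
    refine Finset.sum_congr rfl fun d _ => ?_
    rw [map_pow]
    have h1 : (ψ d) ^ (t ^ k * j) * (ψ d) ^ j = 1 := by
      rw [← pow_add]
      obtain ⟨c, hc⟩ := hk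
      have : t ^ k * j + j = w * (c * j) := by
        calc t ^ k * j + j = (t ^ k + 1) * j := by ring
          _ = w * (c * j) := by rw [hc]; ring
      rw [this, pow_mul, hψw, one_pow]
    have h2 : (starRingEnd ℂ) (ψ d) = (ψ d)⁻¹ := by
      rw [← AddChar.map_neg_eq_conj, AddChar.map_neg_eq_inv]
    have h3 : ψ d ≠ 0 := by
      intro h0
      have := hψw d
      rw [h0, zero_pow hw.ne_zero] at this
      exact zero_ne_one this
    rw [h2]
    have h4 : (ψ d) ^ (t ^ k * j) = ((ψ d) ^ j)⁻¹ := eq_inv_of_mul_eq_one_left h1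
    rw [inv_pow, h4, inv_inv]
  have hαsq : ∀ j, ¬ w ∣ j → α j * α j = n := by
    intro j hj
    have hne : ψ ^ j ≠ 1 := by
      intro h1
      apply hj
      rw [← hψ]
      exact orderOf_dvd_of_pow_eq_one h1
    have := char_sq h (ψ ^ j) hne
    simp only [AddChar.pow_apply] at this
    have h2 : (starRingEnd ℂ) (∑ d ∈ D, ψ d ^ j) = ∑ d ∈ D, ψ d ^ j := hconj j
    rw [h2] at this
    exact this
  have hre : ∀ j, ¬ w ∣ j → ∃ s : ℤ, (α j).re = s * Real.sqrt n := by
    intro j hj
    have h1 : ((α j).re : ℂ) = α j := Complex.conj_eq_iff_re.mp (hconj j)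
    have h2 : (α j).re ^ 2 = n := by
      have := hαsq j hj
      rw [← h1] at this
      have h3 : (((α j).re ^ 2 : ℝ) : ℂ) = ((n : ℝ) : ℂ) := by
        push_cast
        rw [sq]; exact this
      exact_mod_cast h3
    have h3 : (α j).re ^ 2 = Real.sqrt n ^ 2 := by
      rw [h2, Real.sq_sqrt (Nat.cast_nonneg n)]
    rcases sq_eq_sq_iff_eq_or_eq_neg.mp h3 with h4 | h4
    · exact ⟨1, by rw [h4]; simp⟩
    · exact ⟨-1, by rw [h4]; simp⟩
  have hsum : ∑ j ∈ range w, α j = (w * (D.filter (fun d => ψ d = 1)).card : ℕ) := by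
    rw [hα]
    simp only
    rw [Finset.sum_comm]
    have : ∀ d ∈ D, ∑ j ∈ range w, (ψ d) ^ j = if ψ d = 1 then (w : ℂ) else 0 := by
      intro d _
      split_ifs with h1
      · rw [h1]; simp
      · exact geom_zero _ w (hψw d) h1
    rw [Finset.sum_congr rfl this, ← Finset.sum_filter, Finset.sum_const]
    push_cast
    rw [nsmul_eq_mul, mul_comm]
  have hα0 : α 0 = (n + 1 : ℕ) := by
    rw [hα]; simp [h.card_D]
  obtain ⟨w', rfl⟩ : ∃ w', w = w' + 1 := ⟨w - 1, by have := hw.pos; omega⟩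
  rw [Finset.sum_range_succ', hα0] at hsum
  have hre' : ∀ j ∈ range w', ∃ s : ℤ, (α (j + 1)).re = s * Real.sqrt n := by
    intro j hj
    apply hre
    intro hd
    have := Nat.le_of_dvd (by omega) hd
    rw [mem_range] at hj
    omega
  have hm : ∃ m : ℤ, (∑ j ∈ range w', α (j + 1)).re = m * Real.sqrt n := by
    rw [Complex.re_sum]
    choose! s hs using hre'
    refine ⟨∑ j ∈ range w', s j, ?_⟩
    rw [Finset.sum_congr rfl hs, ← Finset.sum_mul]
    push_cast; rfl
  obtain ⟨m, hm⟩ := hm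
  have hreal := congrArg Complex.re hsum
  rw [Complex.add_re, hm] at hreal
  rw [Complex.natCast_re, Complex.natCast_re] at hreal
  by_cases hm0 : m = 0
  · rw [hm0] at hreal
    have h1 : n + 1 = (w' + 1) * (D.filter (fun d => ψ d = 1)).card := by
      have : ((n + 1 : ℕ) : ℝ) = (((w' + 1) * (D.filter (fun d => ψ d = 1)).card : ℕ) : ℝ) := by
        rw [← hreal]; simp
      exact_mod_cast this
    have h2 : (w' + 1) ∣ n + 1 := ⟨_, h1⟩
    have h3 : (w' + 1) ∣ 1 := by
      have h4 := Nat.dvd_gcd hwv h2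
      have h5 : Nat.gcd (n ^ 2 + n + 1) (n + 1) = 1 := cop1 n
      rwa [h5] at h4
    exact hw.one_lt.ne' (Nat.dvd_one.mp h3)
  · have hirr : Irrational (m * Real.sqrt n) :=
      (irrational_sqrt_natCast_iff.mpr hsq).intCast_mul hm0
    have e : (m * Real.sqrt n : ℝ) = (((((w' + 1) * (D.filter (fun d => ψ d = 1)).card : ℕ) : ℤ) -
        ((n + 1 : ℕ) : ℤ) : ℤ) : ℝ) := by
      push_cast
      push_cast at hreal
      linarith
    rw [e] at hirr
    exact (Int.not_irrational _) hirr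

end chars

section final

variable {G : Type*} [AddCommGroup G] [Fintype G] [DecidableEq G] {n : ℕ} {D : Finset G}

theorem cop_of_dvd (h : IsPDS n D) {t w : ℕ} (hcop : Nat.Coprime t (Fintype.card G))
    (hw : w.Prime) (hwv : w ∣ n ^ 2 + n + 1) : (t : ZMod w) ≠ 0 := by
  intro h0
  rw [ZMod.natCast_eq_zero_iff] at h0
  rw [h.card_G] at hcop
  have := Nat.dvd_gcd h0 hwv
  rw [hcop] at this
  exact hw.one_lt.ne' (Nat.dvd_one.mp this)

theorem odd_order (h : IsPDS n D) (hsq : ¬ IsSquare n) (t : ℕ)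
    (hcop : Nat.Coprime t (Fintype.card G)) (ht : D.image (fun x => t • x) = D)
    (w : ℕ) (hw : w.Prime) (hwv : w ∣ n ^ 2 + n + 1) : Odd (orderOf (t : ZMod w)) := by
  have : Fact w.Prime := ⟨hw⟩
  have hu : (t : ZMod w) ≠ 0 := cop_of_dvd h hcop hw hwv
  have hpos : 0 < orderOf (t : ZMod w) := by
    rw [orderOf_pos_iff, isOfFinOrder_iff_pow_eq_one]
    exact ⟨w - 1, by have := hw.one_lt; omega, ZMod.pow_card_sub_one_eq_one hu⟩
  by_contra hodd
  rw [Nat.not_odd_iff_even] at hodd
  obtain ⟨m, hm⟩ := hodd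
  have hmpos : 0 < m := by omega
  have h1 : (t : ZMod w) ^ m ≠ 1 := pow_ne_one_of_lt_orderOf (by omega) (by omega)
  have h2 : (t : ZMod w) ^ m * (t : ZMod w) ^ m = 1 := by
    rw [← pow_add, ← hm, pow_orderOf_eq_one]
  have h3 : (t : ZMod w) ^ m = -1 := by
    rcases mul_self_eq_one_iff.mp h2 with h | h
    · exact absurd h h1
    · exact h
  apply no_neg_one h hsq t hcop ht w hw hwv m
  rw [← ZMod.natCast_eq_zero_iff]
  push_cast
  rw [h3]; ring

theorem jacobi_one (h : IsPDS n D) (hsq : ¬ IsSquare n)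
    (hcop : Nat.Coprime 7 (Fintype.card G)) (ht : D.image (fun x => 7 • x) = D) :
    ∀ m : ℕ, m ∣ n ^ 2 + n + 1 → jacobiSym 7 m = 1 := by
  intro m
  induction m using Nat.recOnMul with
  | zero =>
    intro hm
    rw [zero_dvd_iff] at hm
    omega
  | one => intro _; exact jacobiSym.one_right 7
  | prime w hw =>
    intro hm
    have : Fact w.Prime := ⟨hw⟩
    have h1 := odd_order h hsq 7 hcop ht w hw hm
    have hu : ((7 : ℕ) : ZMod w) ≠ 0 := cop_of_dvd h hcop hw hm
    rw [← jacobiSym.legendreSym.to_jacobiSym]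
    rw [legendreSym.eq_one_iff]
    · obtain ⟨m, hm⟩ := h1
      refine ⟨((7 : ℕ) : ZMod w) ^ (m + 1), ?_⟩
      have h2 := pow_orderOf_eq_one ((7 : ℕ) : ZMod w)
      rw [hm] at h2
      have h3 : ((7 : ℕ) : ZMod w) ^ (m + 1) * ((7 : ℕ) : ZMod w) ^ (m + 1) =
          ((7 : ℕ) : ZMod w) ^ (2 * m + 1) * ((7 : ℕ) : ZMod w) := by ring
      rw [h3, h2]
      push_cast
      ring
    · push_cast at hu ⊢
      exact hu
  | mul a b ha hb =>
    intro hm
    have ha0 : a ≠ 0 := by
      rintro rfl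
      rw [zero_mul, zero_dvd_iff] at hm
      omega
    have hb0 : b ≠ 0 := by
      rintro rfl
      rw [mul_zero, zero_dvd_iff] at hm
      omega
    have : NeZero a := ⟨ha0⟩
    have : NeZero b := ⟨hb0⟩
    rw [jacobiSym.mul_right, ha (dvd_trans (dvd_mul_right a b) hm),
      hb (dvd_trans (dvd_mul_left b a) hm), one_mul]

theorem v_odd (n : ℕ) : Odd (n ^ 2 + n + 1) := by
  rw [Nat.odd_iff]
  rcases Nat.mod_two_eq_zero_or_one n with h | h <;> simp [Nat.add_mod, Nat.pow_mod, h]

theorem mod_four (h : IsPDS n D) (hsq : ¬ IsSquare n) (h2 : n % 2 = 1)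
    (hcop : Nat.Coprime 7 (Fintype.card G)) (ht : D.image (fun x => 7 • x) = D) :
    (n % 7 = 1 → n % 4 = 1) ∧ (n % 7 = 3 → n % 4 = 1) ∧ (n % 7 = 6 → n % 4 = 3) := by
  have h1 := jacobi_one h hsq hcop ht _ dvd_rfl
  have h3 := jacobiSym.quadratic_reciprocity (a := 7) (b := n ^ 2 + n + 1) (by decide) (v_odd n)
  have h4 : jacobiSym ((n ^ 2 + n + 1 : ℕ) : ℤ) 7 = jacobiSym (((n ^ 2 + n + 1) % 7 : ℕ) : ℤ) 7 := by
    rw [jacobiSym.mod_left]
    congr 1
  have h5 : jacobiSym ((7 : ℕ) : ℤ) (n ^ 2 + n + 1) = 1 := by exact_mod_cast h1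
  rw [h5, h4] at h3
  have hv2 : n % 4 = 1 → ((n ^ 2 + n + 1) / 2) % 2 = 1 := by
    intro h
    have : (n ^ 2 + n + 1) % 4 = 3 := by simp [Nat.add_mod, Nat.pow_mod, h]
    omega
  have hv3 : n % 4 = 3 → ((n ^ 2 + n + 1) / 2) % 2 = 0 := by
    intro h
    have : (n ^ 2 + n + 1) % 4 = 1 := by simp [Nat.add_mod, Nat.pow_mod, h]
    omega
  have hn4 : n % 4 = 1 ∨ n % 4 = 3 := by omega
  have hneg1 : n % 4 = 1 → ((-1 : ℤ)) ^ (7 / 2 * ((n ^ 2 + n + 1) / 2)) = -1 := by
    intro h
    apply Odd.neg_one_pow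
    rw [Nat.odd_mul, Nat.odd_iff, Nat.odd_iff]
    exact ⟨by norm_num, hv2 h⟩
  have hneg3 : n % 4 = 3 → ((-1 : ℤ)) ^ (7 / 2 * ((n ^ 2 + n + 1) / 2)) = 1 := by
    intro h
    apply Even.neg_one_pow
    rw [Nat.even_mul]
    right
    rw [Nat.even_iff]
    exact hv3 h
  refine ⟨fun h7 => ?_, fun h7 => ?_, fun h7 => ?_⟩
  · rcases hn4 with h | h
    · exact h
    · exfalso
      have e : (n ^ 2 + n + 1) % 7 = 3 := by simp [Nat.add_mod, Nat.pow_mod, h7]
      rw [e, hneg3 h] at h3
      revert h3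
      norm_num
  · rcases hn4 with h | h
    · exact h
    · exfalso
      have e : (n ^ 2 + n + 1) % 7 = 6 := by simp [Nat.add_mod, Nat.pow_mod, h7]
      rw [e, hneg3 h] at h3
      revert h3
      norm_num
  · rcases hn4 with h | h
    · exfalso
      have e : (n ^ 2 + n + 1) % 7 = 1 := by simp [Nat.add_mod, Nat.pow_mod, h7]
      rw [e, hneg1 h] at h3
      revert h3
      norm_num
    · exact h

/-- the case of a difference set with sum zero -/
theorem main_zero (h : IsPDS n D) (h0 : ∑ x ∈ D, x = 0) (hm : IsMultiplier 7 D)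
    (hn7 : ¬ 7 ∣ n) :
    (n % 84 = 1 ∨ n % 84 = 29 ∨ n % 84 = 73 ∨ n % 84 = 83) ∧
    (∀ p ∈ ({2, 3, 5, 13, 19, 43, 97, 337} : Finset ℕ), ¬ p ∣ n) ∧
    (¬ IsSquare n → ∀ w : ℕ, w.Prime → w ∣ n ^ 2 + n + 1 → Odd (orderOf (7 : ZMod w))) := by
  have h7 := hm.1
  have hf : Fx D 7 := Fx_of_mult h h0 hm
  have hex := excl h h7 h0 hf
  have h2 : ¬ 2 ∣ n := hex 2 (by simp)
  have h3 : ¬ 3 ∣ n := hex 3 (by simp)
  have h2' : n % 2 = 1 := by omega
  have h3' : n % 3 ≠ 0 := by omega
  have hres := residues h h7 h0 hm hn7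
  refine ⟨?_, hex, ?_⟩
  · by_cases hsq : IsSquare n
    · obtain ⟨m, hm'⟩ := hsq
      have h4 : n % 4 = 1 := by
        have : m % 4 < 4 := Nat.mod_lt _ (by norm_num)
        have e : n % 4 = (m % 4) * (m % 4) % 4 := by rw [hm', Nat.mul_mod]
        generalize m % 4 = r at *
        interval_cases r <;> omega
      have h33 : n % 3 = 1 := by
        have : m % 3 < 3 := Nat.mod_lt _ (by norm_num)
        have e : n % 3 = (m % 3) * (m % 3) % 3 := by rw [hm', Nat.mul_mod]
        generalize m % 3 = r at *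
        interval_cases r <;> omega
      have h77 : n % 7 = 1 := by
        have : m % 7 < 7 := Nat.mod_lt _ (by norm_num)
        have e : n % 7 = (m % 7) * (m % 7) % 7 := by rw [hm', Nat.mul_mod]
        generalize m % 7 = r at *
        interval_cases r <;> omega
      omega
    · obtain ⟨m1, m3, m6⟩ := mod_four h hsq h2' h7 (fx_of_mult h h0 hm)
      rcases hres with hr | ⟨hr, hr'⟩ | ⟨hr, hr'⟩
      · have := m1 hr
        omega
      · have := m3 hr
        omega
      · have := m6 hr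
        omega
  · intro hsq w hw hwv
    have := odd_order h hsq 7 h7 (fx_of_mult h h0 hm) w hw hwv
    exact_mod_cast this

end final

section descent

theorem cop_ab (m : ℕ) (w : ℕ) (hw : w.Prime) (ha : w ∣ m * m + m + 1) (hb : w ∣ m * m + 1 - m)
    : False := by
  have hodd : ¬ 2 ∣ m * m + m + 1 := by
    intro h
    have : (m * m + m + 1) % 2 = 0 := Nat.mod_eq_zero_of_dvd h
    rcases Nat.mod_two_eq_zero_or_one m with h | h <;> simp [Nat.add_mod, Nat.mul_mod, h] at this
  have hle : m ≤ m * m + 1 := by nlinarith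
  have ha' : (w : ℤ) ∣ (m : ℤ) * m + m + 1 := by exact_mod_cast ha
  have hb' : (w : ℤ) ∣ (m : ℤ) * m + 1 - m := by
    have := Int.natCast_dvd_natCast.mpr hb
    rw [Nat.cast_sub hle] at this
    push_cast at this
    exact this
  have h2 : (w : ℤ) ∣ 2 := by
    have := dvd_add (ha'.mul_left (1 - (m : ℤ))) (hb'.mul_left (1 + (m : ℤ)))
    have e : (1 - (m : ℤ)) * ((m : ℤ) * m + m + 1) + (1 + (m : ℤ)) * ((m : ℤ) * m + 1 - m) = 2 := by
      ring
    rwa [e] at this
  have h2' : w ∣ 2 := by exact_mod_cast h2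
  have hw2 : w = 2 := (Nat.prime_dvd_prime_iff_eq hw Nat.prime_two).mp h2'
  rw [hw2] at ha
  exact hodd ha

/-- the kernel of a divisor of the group order has order dividing it (coprime case) -/
theorem card_ker_dvd {G : Type u} [AddCommGroup G] [Fintype G] (a b : ℕ)
    (hab : Fintype.card G = a * b) (hc : ∀ w : ℕ, w.Prime → w ∣ a → w ∣ b → False) :
    Nat.card (nsmulAddMonoidHom (α := G) a).ker ∣ a := by
  have h1 : Nat.card (nsmulAddMonoidHom (α := G) a).ker ∣ a * b := by
    rw [← hab, ← Nat.card_eq_fintype_card]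
    exact AddSubgroup.card_addSubgroup_dvd_card _
  apply Nat.Coprime.dvd_of_dvd_mul_right _ h1
  apply Nat.Coprime.symm
  apply Nat.coprime_of_dvd
  intro w hw hwb hwk
  have : Fact w.Prime := ⟨hw⟩
  obtain ⟨x, hx⟩ := exists_prime_addOrderOf_dvd_card' w hwk
  have hxa : a • x = 0 := by
    apply Subtype.ext
    have := x.2
    rw [AddMonoidHom.mem_ker] at this
    exact this
  have : addOrderOf x ∣ a := addOrderOf_dvd_of_nsmul_eq_zero hxa
  rw [hx] at this
  exact hc w hw this hwb

theorem card_ker {G : Type u} [AddCommGroup G] [Fintype G] (a b : ℕ)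
    (hab : Fintype.card G = a * b) (hc : ∀ w : ℕ, w.Prime → w ∣ a → w ∣ b → False) :
    Nat.card (nsmulAddMonoidHom (α := G) a).ker = a := by
  have hpos : 0 < a * b := by rw [← hab]; exact Fintype.card_pos
  have ha : 0 < a := Nat.pos_of_mul_pos_right hpos
  have hb : 0 < b := Nat.pos_of_mul_pos_left hpos
  have h1 := Nat.le_of_dvd ha (card_ker_dvd a b hab hc)
  have h2 := Nat.le_of_dvd hb (card_ker_dvd (G := G) b a (by rw [hab, mul_comm])
    (fun w hw h1 h2 => hc w hw h2 h1))
  have h3 : Nat.card (nsmulAddMonoidHom (α := G) b).ker *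
      Nat.card (nsmulAddMonoidHom (α := G) b).range = a * b := by
    rw [← hab, ← Nat.card_eq_fintype_card, mul_comm]
    have e1 := AddSubgroup.card_eq_card_quotient_mul_card_addSubgroup
      (nsmulAddMonoidHom (α := G) b).ker
    have e2 : Nat.card (G ⧸ (nsmulAddMonoidHom (α := G) b).ker) =
        Nat.card (nsmulAddMonoidHom (α := G) b).range :=
      Nat.card_congr (QuotientAddGroup.quotientKerEquivRange _).toEquiv
    rw [e1, e2]
  have h4 : Nat.card (nsmulAddMonoidHom (α := G) b).range ≤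
      Nat.card (nsmulAddMonoidHom (α := G) a).ker := by
    apply Nat.card_le_card_of_injective
      (fun x => ⟨x.1, by
        obtain ⟨y, hy⟩ := x.2
        rw [AddMonoidHom.mem_ker, ← hy]
        change a • b • y = 0
        rw [← mul_smul, ← hab]
        exact card_nsmul_eq_zero⟩)
    intro x y hxy
    have h5 := congrArg Subtype.val hxy
    exact Subtype.ext h5
  apply le_antisymm h1
  by_contra hcon
  push Not at hcon
  have h5 := Nat.mul_le_mul h2 h4
  rw [h3] at h5
  have h6 : b * Nat.card (nsmulAddMonoidHom (α := G) a).ker < b * a :=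
    Nat.mul_lt_mul_of_pos_left hcon hb
  rw [mul_comm a b] at h5
  omega

theorem descent {G : Type u} [AddCommGroup G] [Fintype G] [DecidableEq G] {n : ℕ} {D : Finset G}
    (h : IsPDS n D) (h0 : ∑ x ∈ D, x = 0) (hm7 : IsMultiplier 7 D) (m : ℕ) (hm : n = m * m) :
    ∃ (H : Type u) (_ : AddCommGroup H) (_ : Fintype H) (_ : DecidableEq H) (E : Finset H),
      IsPDS m E ∧ IsMultiplier 7 E := by
  classical
  have hn2 := h.two_le
  have hm2 : 2 ≤ m := by
    by_contra hcon
    have : m = 0 ∨ m = 1 := by omega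
    rcases this with rfl | rfl <;> omega
  have hle : m ≤ m * m + 1 := by nlinarith
  set a := m * m + m + 1 with ha
  set b := m * m + 1 - m with hb
  have hbm : b = (m - 1) * m + 1 := by
    obtain ⟨c, rfl⟩ : ∃ c, m = c + 1 := ⟨m - 1, by omega⟩
    rw [hb]
    have : (c + 1) * (c + 1) + 1 = (c * (c + 1) + 1) + (c + 1) := by ring
    rw [this, Nat.add_sub_cancel, Nat.add_sub_cancel]
  have hab : Fintype.card G = a * b := by
    rw [h.card_G, hm, hbm, ha]
    obtain ⟨c, rfl⟩ : ∃ c, m = c + 1 := ⟨m - 1, by omega⟩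
    rw [Nat.add_sub_cancel]
    ring
  have hcop : ∀ w : ℕ, w.Prime → w ∣ a → w ∣ b → False := fun w hw h1 h2 => cop_ab m w hw h1 h2
  clear_value a b
  set H : AddSubgroup G := (nsmulAddMonoidHom (α := G) a).ker with hH
  have hmem : ∀ g : G, g ∈ H ↔ a • g = 0 := by
    intro g
    rw [hH, AddMonoidHom.mem_ker]; rfl
  have hcardH : Nat.card H = a := card_ker a b hab hcop
  have hFm : Fx D m := Fx_dvd h h0 m ⟨m, hm⟩
  have hFm3 : Fx D (m * m * m) := (hFm.mul hFm).mul hFm
  have hm3 : m * m * m = (m - 1) * a + 1 := by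
    obtain ⟨c, rfl⟩ : ∃ c, m = c + 1 := ⟨m - 1, by omega⟩
    rw [Nat.add_sub_cancel, ha]
    ring
  have hfix : ∀ g : G, g ∈ H ↔ (m * m * m) • g = g := by
    intro g
    rw [hmem, hm3, add_smul, one_smul, mul_smul]
    constructor
    · intro hg
      rw [hg]; simp
    · intro hg
      have h1 : (m - 1) • a • g = 0 := by
        have := add_eq_right.mp hg
        exact this
      have h2 : b • a • g = 0 := by
        rw [← mul_smul, mul_comm, ← hab]
        exact card_nsmul_eq_zero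
      rw [hbm, add_smul, one_smul, mul_comm (m - 1) m, mul_smul, h1] at h2
      simpa using h2
  let E : Finset H := (univ : Finset H).filter (fun y => (y : G) ∈ D)
  have hE : ∀ y : H, y ∈ E ↔ (y : G) ∈ D := by
    intro y
    simp [E]
  have hdiff : ∀ x : H, x ≠ 0 → ∃! p : H × H, p.1 ∈ E ∧ p.2 ∈ E ∧ p.1 - p.2 = x := by
    intro x hx
    have hx' : (x : G) ≠ 0 := fun h => hx (Subtype.ext h)
    obtain ⟨⟨c, d⟩, ⟨hc, hd, hcd⟩, hu⟩ := h.diff x hx'
    simp only at hc hd hcd
    have h1 := hu ((m * m * m) • c, (m * m * m) • d) ⟨hFm3 c hc, hFm3 d hd, by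
      change (m * m * m) • c - (m * m * m) • d = x
      rw [← smul_sub, hcd]
      exact (hfix x).mp x.2⟩
    have hcH : c ∈ H := (hfix c).mpr (congrArg Prod.fst h1)
    have hdH : d ∈ H := (hfix d).mpr (congrArg Prod.snd h1)
    refine ⟨(⟨c, hcH⟩, ⟨d, hdH⟩), ⟨(hE _).mpr hc, (hE _).mpr hd, Subtype.ext hcd⟩, ?_⟩
    rintro ⟨y, z⟩ ⟨hy, hz, hyz⟩
    have h2 := hu ((y : G), (z : G)) ⟨(hE _).mp hy, (hE _).mp hz, by
      simpa using congrArg Subtype.val hyz⟩
    have h3 : (y : G) = c := congrArg Prod.fst h2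
    have h4 : (z : G) = d := congrArg Prod.snd h2
    exact Prod.ext (Subtype.ext h3) (Subtype.ext h4)
  have hcard2 : E.offDiag.card = ((univ : Finset H).erase 0).card := by
    apply Finset.card_bij (fun p _ => p.1 - p.2)
    · intro p hp
      rw [mem_offDiag] at hp
      rw [mem_erase]
      exact ⟨sub_ne_zero.mpr hp.2.2, mem_univ _⟩
    · intro p hp q hq hpq
      rw [mem_offDiag] at hp hq
      obtain ⟨r, _, hu⟩ := hdiff (p.1 - p.2) (sub_ne_zero.mpr hp.2.2)
      rw [hu p ⟨hp.1, hp.2.1, rfl⟩, hu q ⟨hq.1, hq.2.1, hpq.symm⟩]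
    · intro x hx
      rw [mem_erase] at hx
      obtain ⟨r, hr, _⟩ := hdiff x hx.1
      refine ⟨r, ?_, hr.2.2⟩
      rw [mem_offDiag]
      refine ⟨hr.1, hr.2.1, ?_⟩
      intro he
      apply hx.1
      rw [← hr.2.2, he, sub_self]
  have hcardH' : Fintype.card H = m ^ 2 + m + 1 := by
    rw [← Nat.card_eq_fintype_card, hcardH, ha]; ring
  have hcardE : E.card = m + 1 := by
    rw [Finset.offDiag_card, Finset.card_erase_of_mem (mem_univ _), Finset.card_univ, hcardH'] at hcard2
    have h1 : E.card ≤ E.card * E.card := Nat.le_mul_self _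
    have h2 : E.card * E.card = m * m + m + E.card := by
      have : m ^ 2 = m * m := by ring
      omega
    rcases Nat.lt_trichotomy E.card (m + 1) with h3 | h3 | h3
    · exfalso; nlinarith
    · exact h3
    · exfalso; nlinarith
  refine ⟨H, inferInstance, inferInstance, inferInstance, E, ⟨hm2, hcardH', hcardE, hdiff⟩, ?_, 0, ?_⟩
  · apply Nat.Coprime.coprime_dvd_right _ hm7.1
    rw [hab, ← Nat.card_eq_fintype_card, hcardH]
    exact dvd_mul_right a b
  · have hcop7 : Nat.Coprime 7 (Fintype.card H) := by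
      apply Nat.Coprime.coprime_dvd_right _ hm7.1
      rw [hab, ← Nat.card_eq_fintype_card, hcardH]
      exact dvd_mul_right a b
    have e1 : E.image (fun x => x + 0) = E := by simp
    rw [e1]
    apply Finset.eq_of_subset_of_card_le
    · intro y hy
      rw [mem_image] at hy
      obtain ⟨z, hz, rfl⟩ := hy
      rw [hE] at hz ⊢
      exact Fx_of_mult h h0 hm7 z hz
    · rw [Finset.card_image_of_injective _ (smul_inj 7 hcop7)]

end descent
section final2

theorem jacobi_one' {G : Type u} [AddCommGroup G] [Fintype G] [DecidableEq G] {n : ℕ}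
    {D : Finset G} (h : IsPDS n D) (hsq : ¬ IsSquare n) (t : ℕ)
    (hcop : Nat.Coprime t (Fintype.card G)) (ht : D.image (fun x => t • x) = D) :
    ∀ m : ℕ, m ∣ n ^ 2 + n + 1 → jacobiSym (t : ℤ) m = 1 := by
  intro m
  induction m using Nat.recOnMul with
  | zero =>
    intro hm
    rw [zero_dvd_iff] at hm
    omega
  | one => intro _; exact jacobiSym.one_right _
  | prime w hw =>
    intro hm
    have : Fact w.Prime := ⟨hw⟩
    have h1 := odd_order h hsq t hcop ht w hw hm
    have hu : ((t : ℕ) : ZMod w) ≠ 0 := cop_of_dvd h hcop hw hm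
    rw [← jacobiSym.legendreSym.to_jacobiSym]
    rw [legendreSym.eq_one_iff]
    · obtain ⟨m, hm⟩ := h1
      refine ⟨((t : ℕ) : ZMod w) ^ (m + 1), ?_⟩
      have h2 := pow_orderOf_eq_one ((t : ℕ) : ZMod w)
      rw [hm] at h2
      have h3 : ((t : ℕ) : ZMod w) ^ (m + 1) * ((t : ℕ) : ZMod w) ^ (m + 1) =
          ((t : ℕ) : ZMod w) ^ (2 * m + 1) * ((t : ℕ) : ZMod w) := by ring
      rw [h3, h2]
      push_cast
      ring
    · push_cast at hu ⊢
      exact hu
  | mul a b ha hb =>
    intro hm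
    have ha0 : a ≠ 0 := by
      rintro rfl
      rw [zero_mul, zero_dvd_iff] at hm
      omega
    have hb0 : b ≠ 0 := by
      rintro rfl
      rw [mul_zero, zero_dvd_iff] at hm
      omega
    have : NeZero a := ⟨ha0⟩
    have : NeZero b := ⟨hb0⟩
    rw [jacobiSym.mul_right, ha (dvd_trans (dvd_mul_right a b) hm),
      hb (dvd_trans (dvd_mul_left b a) hm), one_mul]

theorem prime_mod_four {G : Type u} [AddCommGroup G] [Fintype G] [DecidableEq G] {n : ℕ}
    {D : Finset G} (h : IsPDS n D) (h0 : ∑ x ∈ D, x = 0) (hsq : ¬ IsSquare n)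
    (h4 : n % 4 = 1) (p : ℕ) (hp : p.Prime) (hpn : p ∣ n) : p % 4 = 1 := by
  have hmul := multiplier_thm h p hp hpn
  have hj := jacobi_one' h hsq p hmul.1 (fx_of_mult h h0 hmul) _ dvd_rfl
  have hpodd : Odd p := by
    rw [Nat.odd_iff]
    by_contra hcon
    have h2 : 2 ∣ p := by omega
    have h3 : 2 ∣ n := dvd_trans h2 hpn
    omega
  have hq := jacobiSym.quadratic_reciprocity (a := p) (b := n ^ 2 + n + 1) hpodd (v_odd n)
  have h1 : jacobiSym ((n ^ 2 + n + 1 : ℕ) : ℤ) p = 1 := by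
    have hme : Int.ModEq (p : ℤ) ((n ^ 2 + n + 1 : ℕ) : ℤ) 1 := by
      apply Int.ModEq.symm
      rw [Int.modEq_iff_dvd]
      have : ((n ^ 2 + n + 1 : ℕ) : ℤ) - 1 = (n : ℤ) * (n + 1) := by push_cast; ring
      rw [this]
      exact (Int.natCast_dvd_natCast.mpr hpn).mul_right _
    rw [jacobiSym.mod_left' hme, jacobiSym.one_left]
  rw [hj, h1, mul_one] at hq
  have hv : ((n ^ 2 + n + 1) / 2) % 2 = 1 := by
    have : (n ^ 2 + n + 1) % 4 = 3 := by simp [Nat.add_mod, Nat.pow_mod, h4]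
    omega
  by_contra hcon
  have hp2 : (p / 2) % 2 = 1 := by
    have := Nat.odd_iff.mp hpodd
    omega
  have : ((-1 : ℤ)) ^ (p / 2 * ((n ^ 2 + n + 1) / 2)) = -1 := by
    apply Odd.neg_one_pow
    rw [Nat.odd_mul, Nat.odd_iff, Nat.odd_iff]
    exact ⟨hp2, hv⟩
  rw [this] at hq
  norm_num at hq

/-- reduction to nonsquare orders -/
theorem reduction : ∀ (n : ℕ) (G : Type u) [AddCommGroup G] [Fintype G] [DecidableEq G]
    (D : Finset G), IsPDS n D → IsMultiplier 7 D → ¬ 7 ∣ n →
    ∃ (m k : ℕ) (H : Type u) (_ : AddCommGroup H) (_ : Fintype H) (_ : DecidableEq H)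
      (E : Finset H), n = m ^ 2 ^ k ∧ ¬ IsSquare m ∧ IsPDS m E ∧ IsMultiplier 7 E ∧ ¬ 7 ∣ m := by
  intro n
  induction n using Nat.strong_induction_on with
  | _ n ih =>
    intro G _ _ _ D h hm hn
    by_cases hsq : IsSquare n
    · obtain ⟨m, hmn⟩ := hsq
      obtain ⟨g, hg⟩ := exists_zero_sum h
      obtain ⟨H, i1, i2, i3, E, hE, hE7⟩ := descent (h.translate g) hg (multiplier_translate 7 g hm)
        m hmn
      have hm2 := hE.two_le
      have hlt : m < n := by rw [hmn]; nlinarith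
      have hm7 : ¬ 7 ∣ m := fun hd => hn (by rw [hmn]; exact hd.mul_right m)
      obtain ⟨m', k, H', j1, j2, j3, E', e1, e2, e3, e4, e5⟩ := ih m hlt H E hE hE7 hm7
      refine ⟨m', k + 1, H', j1, j2, j3, E', ?_, e2, e3, e4, e5⟩
      rw [hmn, pow_succ, pow_mul, ← e1]
      ring
    · refine ⟨n, 0, G, inferInstance, inferInstance, inferInstance, D, ?_, hsq, h, hm, hn⟩
      simp

end final2

/-- Restrictions on the order `n` of a planar difference set with extraneous multiplier `7`, and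
reduction to nonsquare orders. -/
theorem result {G : Type u} [AddCommGroup G] [Fintype G] [DecidableEq G] (n : ℕ) (D : Finset G)
    (h : IsPDS n D) (hm : IsMultiplier 7 D) (hn : ¬ 7 ∣ n) :
    (n % 84 = 1 ∨ n % 84 = 29 ∨ n % 84 = 73 ∨ n % 84 = 83) ∧
    (∀ p ∈ ({2, 3, 5, 13, 19, 43, 97, 337} : Finset ℕ), ¬ p ∣ n) ∧
    ∃ (m k : ℕ) (H : Type u) (_ : AddCommGroup H) (_ : Fintype H) (_ : DecidableEq H)
      (E : Finset H), n = m ^ 2 ^ k ∧ ¬ IsSquare m ∧ IsPDS m E ∧ IsMultiplier 7 E ∧ ¬ 7 ∣ m ∧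
      (m % 84 = 1 ∨ m % 84 = 29 ∨ m % 84 = 73 ∨ m % 84 = 83) ∧
      (∀ w : ℕ, w.Prime → w ∣ m ^ 2 + m + 1 → Odd (orderOf (7 : ZMod w))) ∧
      (m % 4 = 1 → ∀ p : ℕ, p.Prime → p ∣ m → p % 4 = 1) := by
  obtain ⟨g, hg⟩ := exists_zero_sum h
  obtain ⟨r1, r2, _⟩ := main_zero (h.translate g) hg (multiplier_translate 7 g hm) hn
  refine ⟨r1, r2, ?_⟩
  obtain ⟨m, k, H, i1, i2, i3, E, e1, e2, e3, e4, e5⟩ := reduction n G D h hm hn
  obtain ⟨g', hg'⟩ := exists_zero_sum e3
  obtain ⟨s1, _, s3⟩ := main_zero (e3.translate g') hg' (multiplier_translate 7 g' e4) e5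
  exact ⟨m, k, H, i1, i2, i3, E, e1, e2, e3, e4, e5, s1, s3 e2,
    fun h4 p hp hpm => prime_mod_four (e3.translate g') hg' e2 h4 p hp hpm⟩
end Pool.Agent.Results.MP_ba8304_co.NonsquareReduction
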